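import Pool.Agent.H41.FD.Stm
import Pool.Agent.H41.LD.Low

/-! # Project FD: the convergent case -/

set_option autoImplicit false

namespace Pool.Agent.H41.FD

open MeasureTheory Filter Topology ProbabilityTheory
open Pool.Agent.H41.LD (Past Future RangeDep)

/-- the uniform distribution -/
noncomputable def nu : Measure ℝ := volume.restrict (Set.Icc 0 1)

instance : IsProbabilityMeasure nu :=
  ⟨by rw [nu, Measure.restrict_apply_univ, Real.volume_Icc, sub_zero, ENNReal.ofReal_one]⟩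

lemma nu_Iic {x : ℝ} (h0 : 0 ≤ x) (h1 : x ≤ 1) : nu.real (Set.Iic x) = x := by
  rw [nu, measureReal_restrict_apply measurableSet_Iic]
  have e : Set.Iic x ∩ Set.Icc 0 1 = Set.Icc 0 x := by
    ext y
    simp only [Set.mem_inter_iff, Set.mem_Iic, Set.mem_Icc]
    constructor
    · rintro ⟨h, h2, _⟩; exact ⟨h2, h⟩
    · rintro ⟨h, h2⟩; exact ⟨h2, h, h2.trans h1⟩
  rw [e, measureReal_def, Real.volume_Icc, sub_zero, ENNReal.toReal_ofReal h0]

/-- the probability space -/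
noncomputable def Pm : Measure (ℕ × ℕ → ℝ) := Measure.infinitePi fun _ => nu

instance : IsProbabilityMeasure Pm := by unfold Pm; infer_instance

lemma Pm_Iic (i : ℕ × ℕ) {x : ℝ} (h0 : 0 ≤ x) (h1 : x ≤ 1) :
    Pm.real {u | u i ≤ x} = x := by
  have h := (measurePreserving_eval_infinitePi (fun _ : ℕ × ℕ => nu) i).measureReal_preimage
    (s := Set.Iic x) measurableSet_Iic.nullMeasurableSet
  rw [nu_Iic h0 h1] at h
  exact h

/-- the length of the blocks -/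
def Ln (d : ℕ → ℕ) (s : ℕ) : ℕ := min (1 + d (2 ^ s - 1)) (2 ^ s)

lemma Ln_pos (d : ℕ → ℕ) (s : ℕ) : 0 < Ln d s :=
  lt_min (by omega) (Nat.two_pow_pos s)

/-- the block of `k` -/
def bet (d : ℕ → ℕ) (k : ℕ) : ℕ × ℕ :=
  (Nat.log 2 (k + 1), (k + 1 - 2 ^ Nat.log 2 (k + 1)) / Ln d (Nat.log 2 (k + 1)))

/-- the events -/
def Ev (d : ℕ → ℕ) (k : ℕ) : Set (ℕ × ℕ → ℝ) := {u | u (bet d k) ≤ 1 / ((k : ℝ) + 1)}

lemma bet_ne {d : ℕ → ℕ} (hd : Monotone d) {n' n k : ℕ} (h1 : n' ≤ n) (h2 : n + d n < k) :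
    bet d n' ≠ bet d k := by
  intro h
  unfold bet at h
  rw [Prod.mk.injEq] at h
  obtain ⟨hs, hq⟩ := h
  rw [← hs] at hq
  set s := Nat.log 2 (n' + 1) with hsdef
  have hp1 : 2 ^ s ≤ n' + 1 := Nat.pow_log_le_self 2 (by omega)
  have hL := Ln_pos d s
  have hL2 : Ln d s ≤ 1 + d (2 ^ s - 1) := min_le_left _ _
  have hd1 : d (2 ^ s - 1) ≤ d n' := hd (by omega)
  have hd2 : d n' ≤ d n := hd h1
  have h3 : k + 1 - 2 ^ s < ((k + 1 - 2 ^ s) / Ln d s + 1) * Ln d s := by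
    have := Nat.lt_div_mul_add (a := k + 1 - 2 ^ s) hL
    rw [add_mul, one_mul]
    exact this
  have h4 : (n' + 1 - 2 ^ s) / Ln d s * Ln d s ≤ n' + 1 - 2 ^ s := Nat.div_mul_le_self _ _
  rw [← hq, add_mul, one_mul] at h3
  omega

lemma ev_meas (d : ℕ → ℕ) (k : ℕ) : MeasurableSet (Ev d k) :=
  measurableSet_le (measurable_pi_apply _) measurable_const

lemma range_dep {d : ℕ → ℕ} (hd : Monotone d) : RangeDep Pm (Ev d) d := by
  refine ⟨ev_meas d, fun n => ?_⟩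
  have hi : iIndepFun (fun (i : ℕ × ℕ) (u : ℕ × ℕ → ℝ) => u i) Pm :=
    iIndepFun_infinitePi (P := fun _ => nu) (X := fun _ x => x) (fun _ => measurable_id)
  have hi' : iIndep (fun i : ℕ × ℕ => MeasurableSpace.comap (fun u : ℕ × ℕ → ℝ => u i)
      inferInstance) Pm := hi
  have hdisj : Disjoint {i : ℕ × ℕ | ∃ k, k ≤ n ∧ bet d k = i}
      {i : ℕ × ℕ | ∃ k, n + d n < k ∧ bet d k = i} := by
    rw [Set.disjoint_left]
    rintro i ⟨k, hk, rfl⟩ ⟨k', hk', h⟩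
    exact bet_ne hd hk hk' h.symm
  have h := indep_iSup_of_disjoint (fun i => (measurable_pi_apply i).comap_le) hi' hdisj
  have hm : ∀ (S : Set (ℕ × ℕ)) (k : ℕ), bet d k ∈ S →
      MeasurableSet[⨆ i ∈ S, MeasurableSpace.comap (fun u : ℕ × ℕ → ℝ => u i) inferInstance]
        (Ev d k) := by
    intro S k hk
    have h1 : MeasurableSpace.comap (fun u : ℕ × ℕ → ℝ => u (bet d k)) inferInstance ≤
        ⨆ i ∈ S, MeasurableSpace.comap (fun u : ℕ × ℕ → ℝ => u i) inferInstance :=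
      le_iSup₂ (f := fun i (_ : i ∈ S) =>
        MeasurableSpace.comap (fun u : ℕ × ℕ → ℝ => u i) inferInstance) (bet d k) hk
    apply h1
    exact ⟨Set.Iic (1 / ((k : ℝ) + 1)), measurableSet_Iic, rfl⟩
  refine indep_of_indep_of_le_left (indep_of_indep_of_le_right h ?_) ?_
  · apply MeasurableSpace.generateFrom_le
    rintro s ⟨k, hk, rfl⟩
    exact hm _ k ⟨k, hk, rfl⟩
  · apply MeasurableSpace.generateFrom_le
    rintro s ⟨k, hk, rfl⟩
    exact hm _ k ⟨k, hk, rfl⟩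

lemma cond_sum {d : ℕ → ℕ} (hd : Monotone d)
    (h : Summable (fun k : ℕ => 1 / ((k : ℝ) * (1 + d k)))) :
    Summable fun s : ℕ => 1 / (1 + (d (2 ^ s - 1) : ℝ)) := by
  have h1 : Summable fun s : ℕ => (2 : ℝ) ^ s * (1 / (((2 ^ s : ℕ) : ℝ) * (1 + d (2 ^ s)))) := by
    refine (summable_condensed_iff_of_nonneg (f := fun k : ℕ => 1 / ((k : ℝ) * (1 + d k)))
      (fun n => by positivity) ?_).2 h
    intro m n hm hmn
    have hmR : (0 : ℝ) < m := by exact_mod_cast hm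
    have hmn' : (m : ℝ) ≤ n := by exact_mod_cast hmn
    have hdd : (d m : ℝ) ≤ d n := by exact_mod_cast hd hmn
    apply one_div_le_one_div_of_le (by positivity)
    have h0 : (0 : ℝ) ≤ n := hmR.le.trans hmn'
    gcongr
  have h2 : Summable fun s : ℕ => 1 / (1 + (d (2 ^ s) : ℝ)) := by
    refine h1.congr fun s => ?_
    have h3 : (0 : ℝ) < 1 + (d (2 ^ s) : ℝ) := by positivity
    push_cast
    field_simp
  rw [← summable_nat_add_iff 1]
  refine h2.of_nonneg_of_le (fun s => by positivity) fun s => ?_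
  have h3 : d (2 ^ s) ≤ d (2 ^ (s + 1) - 1) := hd (by
    have := Nat.two_pow_pos s
    rw [pow_succ]; omega)
  have h4 : (d (2 ^ s) : ℝ) ≤ d (2 ^ (s + 1) - 1) := by exact_mod_cast h3
  apply one_div_le_one_div_of_le (by positivity)
  linarith

/-- the union over the dyadic block -/
def Dn (d : ℕ → ℕ) (s : ℕ) : Set (ℕ × ℕ → ℝ) :=
  ⋃ j ∈ Finset.range (2 ^ s / Ln d s + 1), {u | u (s, j) ≤ 1 / (2 : ℝ) ^ s}

lemma ev_sub (d : ℕ → ℕ) (k : ℕ) : Ev d k ⊆ Dn d (Nat.log 2 (k + 1)) := by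
  intro u hu
  set s := Nat.log 2 (k + 1) with hs
  have hp1 : 2 ^ s ≤ k + 1 := Nat.pow_log_le_self 2 (by omega)
  have hp2 : k + 1 < 2 ^ (s + 1) := Nat.lt_pow_succ_log_self (by norm_num) _
  simp only [Dn, Set.mem_iUnion, Finset.mem_range, exists_prop]
  refine ⟨(k + 1 - 2 ^ s) / Ln d s, ?_, ?_⟩
  · have : (k + 1 - 2 ^ s) / Ln d s ≤ 2 ^ s / Ln d s := by
      apply Nat.div_le_div_right
      rw [pow_succ] at hp2
      omega
    omega
  · have h1 : u (bet d k) ≤ 1 / ((k : ℝ) + 1) := hu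
    have h2 : 1 / ((k : ℝ) + 1) ≤ 1 / (2 : ℝ) ^ s := by
      apply one_div_le_one_div_of_le (by positivity)
      exact_mod_cast hp1
    exact h1.trans h2

lemma dn_le (d : ℕ → ℕ) (s : ℕ) :
    Pm.real (Dn d s) ≤ 1 / (1 + (d (2 ^ s - 1) : ℝ)) + 2 * (1 / 2 : ℝ) ^ s := by
  have hx1 : 1 / (2 : ℝ) ^ s ≤ 1 := by
    rw [div_le_one (by positivity)]
    exact one_le_pow₀ (by norm_num)
  have h1 : Pm.real (Dn d s) ≤ ((2 ^ s / Ln d s + 1 : ℕ) : ℝ) * (1 / (2 : ℝ) ^ s) := by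
    refine (measureReal_biUnion_finset_le _ _).trans (le_of_eq ?_)
    rw [Finset.sum_congr rfl fun j _ => Pm_Iic (s, j) (by positivity) hx1, Finset.sum_const,
      Finset.card_range, nsmul_eq_mul]
  have hL : (0 : ℝ) < Ln d s := by exact_mod_cast Ln_pos d s
  have h2 : ((2 ^ s / Ln d s : ℕ) : ℝ) ≤ (2 : ℝ) ^ s / Ln d s := by
    have := Nat.cast_div_le (α := ℝ) (m := 2 ^ s) (n := Ln d s)
    push_cast at this
    exact this
  have h3 : 1 / (Ln d s : ℝ) ≤ 1 / (1 + (d (2 ^ s - 1) : ℝ)) + 1 / (2 : ℝ) ^ s := by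
    have ha : (0 : ℝ) < 1 + (d (2 ^ s - 1) : ℝ) := by positivity
    have hb : (0 : ℝ) < (2 : ℝ) ^ s := by positivity
    unfold Ln
    rcases min_choice (1 + d (2 ^ s - 1)) (2 ^ s) with h | h
    · rw [h]; push_cast
      have : 0 ≤ 1 / (2 : ℝ) ^ s := by positivity
      linarith
    · rw [h]; push_cast
      have : 0 ≤ 1 / (1 + (d (2 ^ s - 1) : ℝ)) := by positivity
      linarith
  have hb : (0 : ℝ) < (2 : ℝ) ^ s := by positivity
  calc Pm.real (Dn d s) ≤ ((2 ^ s / Ln d s + 1 : ℕ) : ℝ) * (1 / (2 : ℝ) ^ s) := h1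
    _ ≤ ((2 : ℝ) ^ s / Ln d s + 1) * (1 / (2 : ℝ) ^ s) := by
        push_cast
        have h2' : (((2 ^ s / Ln d s : ℕ) : ℝ)) + 1 ≤ (2 : ℝ) ^ s / Ln d s + 1 := by linarith
        exact mul_le_mul_of_nonneg_right h2' (by positivity)
    _ = 1 / (Ln d s : ℝ) + 1 / (2 : ℝ) ^ s := by field_simp
    _ ≤ 1 / (1 + (d (2 ^ s - 1) : ℝ)) + 1 / (2 : ℝ) ^ s + 1 / (2 : ℝ) ^ s := by linarith
    _ = _ := by rw [one_div_pow]; ring

theorem b : S_B := by
  intro d hd hs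
  refine ⟨ℕ × ℕ → ℝ, inferInstance, Pm, inferInstance, Ev d, range_dep hd, fun k => ?_, ?_⟩
  · apply Pm_Iic _ (by positivity)
    rw [div_le_one (by positivity)]
    have : (0 : ℝ) ≤ k := Nat.cast_nonneg k
    linarith
  · have hsum : Summable fun s : ℕ => Pm.real (Dn d s) := by
      refine Summable.of_nonneg_of_le (fun s => measureReal_nonneg) (dn_le d) ?_
      exact (cond_sum hd hs).add
        ((summable_geometric_of_lt_one (by norm_num) (by norm_num)).mul_left 2)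
    have hfin : ∑' s, Pm (Dn d s) ≠ ⊤ := by
      have h1 : ∀ s, Pm (Dn d s) = ENNReal.ofReal (Pm.real (Dn d s)) := fun s => by
        rw [ofReal_measureReal]
      simp_rw [h1]
      exact hsum.tsum_ofReal_ne_top
    filter_upwards [ae_eventually_notMem hfin] with u hu
    obtain ⟨S, hS⟩ := eventually_atTop.1 hu
    refine (Set.finite_Iio (2 ^ S)).subset fun k hk => ?_
    have h1 : u ∈ Dn d (Nat.log 2 (k + 1)) := ev_sub d k hk
    have h2 : Nat.log 2 (k + 1) < S := by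
      by_contra hcon
      exact hS _ (not_lt.1 hcon) h1
    have h3 : k + 1 < 2 ^ S := Nat.lt_pow_of_log_lt (by norm_num) h2
    simp only [Set.mem_Iio]
    omega

end Pool.Agent.H41.FD
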