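import Pool.Agent.H41.FD.Stm
import Pool.Agent.H41.LD.Low

/-! # Project FD: the divergent case -/

set_option autoImplicit false

namespace Pool.Agent.H41.FD

open MeasureTheory Filter Topology ProbabilityTheory
open Pool.Agent.H41.LD (Past Future RangeDep past_mono event_past event_future indep_real)

/-- the sparse sequence of indices -/
def kap (d : ℕ → ℕ) (K : ℕ) : ℕ → ℕ
  | 0 => K
  | i + 1 => kap d K i + d (kap d K i) + 1

lemma kap_mono (d : ℕ → ℕ) (K : ℕ) : StrictMono (kap d K) :=
  strictMono_nat_of_lt_succ fun i => by show _ < kap d K i + d (kap d K i) + 1; omega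

lemma sum_kap {d : ℕ → ℕ} (hd : Monotone d) {K : ℕ} (hK : 1 ≤ K)
    (h : ¬ Summable (fun k : ℕ => 1 / ((k : ℝ) * (1 + d k)))) :
    Tendsto (fun N : ℕ => ∑ i ∈ Finset.range N, 1 / (kap d K i : ℝ)) atTop atTop := by
  set f : ℕ → ℝ := fun k => 1 / ((k : ℝ) * (1 + d k)) with hf
  have hf0 : ∀ k, 0 ≤ f k := fun k => by positivity
  have h1 : Tendsto (fun n => ∑ k ∈ Finset.range n, f k) atTop atTop :=
    (not_summable_iff_tendsto_nat_atTop_of_nonneg hf0).1 h
  have h2 := h1.comp (kap_mono d K).tendsto_atTop
  have hkK : ∀ i, K ≤ kap d K i := fun i => (kap_mono d K).monotone (Nat.zero_le i)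
  have h3 : ∀ N, ∑ k ∈ Finset.range (kap d K N), f k ≤
      ∑ k ∈ Finset.range K, f k + ∑ i ∈ Finset.range N, 1 / (kap d K i : ℝ) := by
    intro N
    induction N with
    | zero => simp [kap]
    | succ N ih =>
      have e : kap d K (N + 1) = kap d K N + (d (kap d K N) + 1) := by
        show kap d K N + d (kap d K N) + 1 = _
        omega
      rw [e, Finset.sum_range_add, Finset.sum_range_succ (n := N)]
      have hk1 : (1 : ℝ) ≤ kap d K N := by exact_mod_cast hK.trans (hkK N)
      have h4 : ∑ x ∈ Finset.range (d (kap d K N) + 1), f (kap d K N + x) ≤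
          1 / (kap d K N : ℝ) := by
        have h5 : ∀ x ∈ Finset.range (d (kap d K N) + 1), f (kap d K N + x) ≤
            1 / ((kap d K N : ℝ) * (1 + d (kap d K N))) := by
          intro x _
          have h6 : (d (kap d K N) : ℝ) ≤ d (kap d K N + x) := by
            exact_mod_cast hd (Nat.le_add_right _ _)
          simp only [hf]
          apply one_div_le_one_div_of_le (by positivity)
          push_cast
          have hx : (0 : ℝ) ≤ x := Nat.cast_nonneg x
          gcongr
          linarith
        refine (Finset.sum_le_sum h5).trans (le_of_eq ?_)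
        rw [Finset.sum_const, Finset.card_range, nsmul_eq_mul]
        push_cast
        have : (0 : ℝ) < 1 + d (kap d K N) := by positivity
        field_simp
        ring
      linarith
  have h7 : Tendsto (fun N : ℕ => ∑ k ∈ Finset.range K, f k +
      ∑ i ∈ Finset.range N, 1 / (kap d K i : ℝ)) atTop atTop :=
    tendsto_atTop_mono h3 h2
  exact (tendsto_atTop_add_const_left _ (-∑ k ∈ Finset.range K, f k) h7).congr fun N => by ring

theorem a : S_A := by
  intro d hd hns Ω _ P _ E c hc hR hP
  obtain ⟨K₁, hK₁⟩ := eventually_atTop.1 hP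
  have hmain : ∀ K : ℕ, K₁ ≤ K → 1 ≤ K → P {ω | ∀ k, K ≤ k → ω ∉ E k} = 0 := by
    intro K hK hK1
    set A : ℕ → Set Ω := fun N => ⋂ i ∈ Finset.range N, (E (kap d K i))ᶜ with hA
    have hkK : ∀ i, K ≤ kap d K i := fun i => (kap_mono d K).monotone (Nat.zero_le i)
    have hsucc : ∀ N, A (N + 1) = A N ∩ (E (kap d K N))ᶜ := by
      intro N
      simp only [hA]
      ext ω
      simp only [Set.mem_iInter, Finset.mem_range, Set.mem_inter_iff]
      constructor
      · intro h
        exact ⟨fun i hi => h i (by omega), h N (by omega)⟩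
      · rintro ⟨h1, h2⟩ i hi
        rcases Nat.lt_succ_iff_lt_or_eq.1 hi with h | h
        · exact h1 i h
        · rw [h]; exact h2
    have hA0 : A 0 = Set.univ := by simp [hA]
    have hpast : ∀ N, MeasurableSet[Past E (kap d K N)] (A (N + 1)) := by
      intro N
      simp only [hA]
      refine Finset.measurableSet_biInter _ fun i hi => MeasurableSet.compl ?_
      exact event_past ((kap_mono d K).monotone (Nat.lt_succ_iff.1 (Finset.mem_range.1 hi)))
    have hprod : ∀ N, P.real (A N ∩ (E (kap d K N))ᶜ) =
        P.real (A N) * P.real ((E (kap d K N))ᶜ) := by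
      intro N
      cases N with
      | zero => rw [hA0, Set.univ_inter, probReal_univ, one_mul]
      | succ N =>
        refine indep_real (hR.indep (kap d K N)) (hpast N) (MeasurableSet.compl ?_)
        refine event_future ?_
        show _ < kap d K N + d (kap d K N) + 1
        omega
    have hbound : ∀ N, P.real (A N) ≤
        Real.exp (-(c * ∑ i ∈ Finset.range N, 1 / (kap d K i : ℝ))) := by
      intro N
      induction N with
      | zero => rw [hA0]; simp
      | succ N ih =>
        rw [hsucc, hprod, Finset.sum_range_succ]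
        have h1 : P.real ((E (kap d K N))ᶜ) ≤ Real.exp (-(c * (1 / (kap d K N : ℝ)))) := by
          rw [probReal_compl_eq_one_sub (hR.meas _)]
          have h2 := hK₁ (kap d K N) (hK.trans (hkK N))
          have h3 := Real.add_one_le_exp (-(c * (1 / (kap d K N : ℝ))))
          have h4 : c / (kap d K N : ℝ) = c * (1 / (kap d K N : ℝ)) := by ring
          linarith
        calc P.real (A N) * P.real ((E (kap d K N))ᶜ)
            ≤ Real.exp (-(c * ∑ i ∈ Finset.range N, 1 / (kap d K i : ℝ))) *
              Real.exp (-(c * (1 / (kap d K N : ℝ)))) :=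
              mul_le_mul ih h1 measureReal_nonneg (Real.exp_pos _).le
          _ = _ := by rw [← Real.exp_add]; ring_nf
    have hlim : Tendsto (fun N : ℕ => Real.exp (-(c * ∑ i ∈ Finset.range N, 1 / (kap d K i : ℝ))))
        atTop (𝓝 0) := by
      have h1 := (sum_kap hd hK1 hns).const_mul_atTop hc
      exact Real.tendsto_exp_neg_atTop_nhds_zero.comp h1
    have hle : ∀ N, P.real {ω | ∀ k, K ≤ k → ω ∉ E k} ≤
        Real.exp (-(c * ∑ i ∈ Finset.range N, 1 / (kap d K i : ℝ))) := by
      intro N
      refine (measureReal_mono ?_).trans (hbound N)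
      intro ω hω
      simp only [hA, Set.mem_iInter, Set.mem_compl_iff]
      intro i _
      exact hω _ (hkK i)
    have h0 : P.real {ω | ∀ k, K ≤ k → ω ∉ E k} ≤ 0 := ge_of_tendsto' hlim hle
    have h00 : P.real {ω | ∀ k, K ≤ k → ω ∉ E k} = 0 := le_antisymm h0 measureReal_nonneg
    rwa [measureReal_eq_zero_iff] at h00
  have hall : ∀ᵐ ω ∂P, ∀ j : ℕ, ¬ ∀ k, K₁ + 1 + j ≤ k → ω ∉ E k := by
    rw [ae_all_iff]
    intro j
    rw [ae_iff]
    simp only [not_not]
    exact hmain _ (by omega) (by omega)
  filter_upwards [hall] with ω hω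
  rw [Set.infinite_iff_exists_gt]
  intro n
  have h := hω (n + 1)
  push Not at h
  obtain ⟨k, hk1, hk2⟩ := h
  exact ⟨k, hk2, by omega⟩

end Pool.Agent.H41.FD
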