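import Pool.Agent.H41.LD.Defs

/-!
# Project FD (helper41, MP_5893d7_nt): Fibonacci primes in random models with dependence

`E k` is the event that `F_p` is prime, `p` the `k`-th prime; heuristically `P (E k)` is of the order
`(log p) / p ~ 1 / k`. Range of dependence `d`: the events up to `n` are independent of those after
`n + d n`. Almost surely infinitely many `E k` occur in every such model if and only if
`∑ 1 / (k (1 + d k)) = ∞`.
-/

set_option autoImplicit false

namespace Pool.Agent.H41.FD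

open MeasureTheory Filter Topology ProbabilityTheory
open Pool.Agent.H41.LD (Past Future RangeDep)

/-- S_A: the divergent case -/
def S_A : Prop :=
  ∀ (d : ℕ → ℕ), Monotone d → ¬ Summable (fun k : ℕ => 1 / ((k : ℝ) * (1 + d k))) →
    ∀ (Ω : Type) [MeasurableSpace Ω] (P : Measure Ω) [IsProbabilityMeasure P] (E : ℕ → Set Ω)
      (c : ℝ), 0 < c → RangeDep P E d → (∀ᶠ k : ℕ in atTop, c / k ≤ P.real (E k)) →
      ∀ᵐ ω ∂P, {k | ω ∈ E k}.Infinite

/-- S_B: the convergent case.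

Proof. `s = Nat.log 2 k`, `L s = min (1 + d (2 ^ s)) (2 ^ s)`, block of `k`: the pair
`β k = (s, (k - 2 ^ s) / L s)`. `U p`, `p ∈ ℕ × ℕ`, independent uniform on `[0, 1]` (`Measure.infinitePi`),
`E k = {U (β k) ≤ 1 / (k + 1)}`, so `P (E k) = 1 / (k + 1)`. `RangeDep`: if `β n' = β k` with `n' ≤ n < k` then
`k - n' < L s ≤ 1 + d (2 ^ s) ≤ 1 + d n`, so `k ≤ n + d n`; so the pairs of the past and of the future are
disjoint (`indep_iSup_of_disjoint`). `P (⋃ k ∈ [2 ^ s, 2 ^ (s + 1)), E k) ≤ N s * 2 ^ (- s)`,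
`N s ≤ 2 ^ s / L s + 1` the number of blocks; `∑ s, (1 / L s + 2 ^ (- s)) < ∞`, as `∑ s, 1 / (1 + d (2 ^ s)) < ∞` by
condensation (`summable_condensed_iff_of_nonneg`). Borel–Cantelli. -/
def S_B : Prop :=
  ∀ (d : ℕ → ℕ), Monotone d → Summable (fun k : ℕ => 1 / ((k : ℝ) * (1 + d k))) →
    ∃ (Ω : Type) (_ : MeasurableSpace Ω) (P : Measure Ω) (_ : IsProbabilityMeasure P)
      (E : ℕ → Set Ω), RangeDep P E d ∧ (∀ k : ℕ, P.real (E k) = 1 / ((k : ℝ) + 1)) ∧
      ∀ᵐ ω ∂P, {k | ω ∈ E k}.Finite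

end Pool.Agent.H41.FD
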